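import Mathlib

set_option autoImplicit false

namespace Pool.Agent.Results.MP_640be2_al.UnboundedDerivedLength

open scoped commutatorElement

def IsSub {L : Type} [LieRing L] (T : AddSubgroup L) : Prop := ∀ x ∈ T, ∀ y ∈ T, ⁅x, y⁆ ∈ T

def Br {L : Type} [LieRing L] (T1 T2 T3 : AddSubgroup L) : Prop := ∀ x ∈ T1, ∀ y ∈ T2, ⁅x, y⁆ ∈ T3

/-- Passage from a Lie ring L of 2-power order to groups: M is L tensored with the algebra generated by m commuting
square-zero variables, G is the iterated semidirect product of such modules, P T and Q T are the subring and the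
subgroup belonging to a Lie subring T of L, and E S x plays the role of 1 + t_S x for a monomial t_S. If L = A + B then
G is the product of the subgroups belonging to A and B. -/
structure MG (L : Type) [LieRing L] (m : ℕ) where
  M : Type
  G : Type
  [iM : LieRing M]
  [iG : Group G]
  [iA : DistribMulAction G M]
  [fM : Finite M]
  [fG : Finite G]
  smul_lie : ∀ (g : G) (x y : M), g • ⁅x, y⁆ = ⁅g • x, g • y⁆
  cM : ∃ k, Nat.card M = 2 ^ k
  cG : ∃ k, Nat.card G = 2 ^ k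
  P : AddSubgroup L → AddSubgroup M
  Q : (T : AddSubgroup L) → IsSub T → Subgroup G
  P_bot : P ⊥ = ⊥
  Q_bot : ∀ h, Q ⊥ h = ⊥
  P_add : ∀ T1 T2 : AddSubgroup L, (∀ x, ∃ y ∈ T1, ∃ z ∈ T2, x = y + z) → ∀ x, ∃ y ∈ P T1, ∃ z ∈ P T2, x = y + z
  P_lie : ∀ T1 T2 T3, Br T1 T2 T3 → Br (P T1) (P T2) (P T3)
  Q_smul : ∀ T1 h1 T2 T3, Br T1 T2 T3 → Br T1 T3 T3 → ∀ g ∈ Q T1 h1, ∀ x ∈ P T2, g • x - x ∈ P T3
  Q_comm : ∀ T1 h1 T2 h2 T3 h3, Br T1 T2 T3 → Br T2 T1 T3 → Br T1 T3 T3 → Br T2 T3 T3 → Br T3 T1 T3 → Br T3 T2 T3 →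
    ∀ g ∈ Q T1 h1, ∀ h ∈ Q T2 h2, ⁅g, h⁆ ∈ Q T3 h3
  Q_fact : ∀ T1 h1 T2 h2, (∀ x : L, ∃ y ∈ T1, ∃ z ∈ T2, x = y + z) → ∀ g, ∃ a ∈ Q T1 h1, ∃ b ∈ Q T2 h2, g = a * b
  ι : Finset ℕ → L →+ M
  ι_mem : ∀ S T x, x ∈ T → ι S x ∈ P T
  ι_lie : ∀ S T x y, Disjoint S T → ⁅ι S x, ι T y⁆ = ι (S ∪ T) ⁅x, y⁆
  ι_ne : ∀ S x, S ⊆ Finset.range m → ι S x = 0 → x = 0
  E : Finset ℕ → L → G
  E_mem : ∀ S T h x, x ∈ T → E S x ∈ Q T h
  E_add : ∀ S x y, E S (x + y) = E S x * E S y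
  E_ne : ∀ S x, S ⊆ Finset.range m → S.Nonempty → E S x = 1 → x = 0
  E_comm : ∀ S T x y, Disjoint S T → S.Nonempty → T.Nonempty → ⁅E S x, E T y⁆ = E (S ∪ T) ⁅x, y⁆
  E_smul : ∀ S T x y, Disjoint S T → S.Nonempty → E S x • ι T y = ι T y + ι (S ∪ T) ⁅x, y⁆

attribute [instance] MG.iM MG.iG MG.iA MG.fM MG.fG

/-- semidirect product -/
@[ext] structure SD (M G : Type) where
  x : M
  g : G

section SDsec
variable {M G : Type} [AddCommGroup M] [Group G] [DistribMulAction G M]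

instance : Mul (SD M G) := ⟨fun a b => ⟨a.x + a.g • b.x, a.g * b.g⟩⟩
instance : One (SD M G) := ⟨⟨0, 1⟩⟩
instance : Inv (SD M G) := ⟨fun a => ⟨-(a.g⁻¹ • a.x), a.g⁻¹⟩⟩
@[simp] theorem SD.mul_x (a b : SD M G) : (a * b).x = a.x + a.g • b.x := rfl
@[simp] theorem SD.mul_g (a b : SD M G) : (a * b).g = a.g * b.g := rfl
@[simp] theorem SD.one_x : (1 : SD M G).x = 0 := rfl
@[simp] theorem SD.one_g : (1 : SD M G).g = 1 := rfl
@[simp] theorem SD.inv_x (a : SD M G) : (a⁻¹).x = -(a.g⁻¹ • a.x) := rfl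
@[simp] theorem SD.inv_g (a : SD M G) : (a⁻¹).g = a.g⁻¹ := rfl

instance : Group (SD M G) :=
  Group.ofLeftAxioms
    (fun a b c => by
      apply SD.ext
      · simp [smul_add, mul_smul, add_assoc]
      · simp [mul_assoc])
    (fun a => by
      apply SD.ext <;> simp)
    (fun a => by
      apply SD.ext <;> simp)

theorem SD.commutator_eq (a b : SD M G) :
    ⁅a, b⁆ = ⟨(a.x + a.g • b.x) - ⁅a.g, b.g⁆ • (b.x + b.g • a.x), ⁅a.g, b.g⁆⟩ := by
  rw [commutatorElement_def]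
  have h : a * b * a⁻¹ * b⁻¹ = (a * b) * (b * a)⁻¹ := by group
  rw [h]
  have h2 : ⁅a.g, b.g⁆ = (a.g * b.g) * (b.g * a.g)⁻¹ := by rw [commutatorElement_def]; group
  apply SD.ext
  · rw [SD.mul_x, SD.inv_x, SD.mul_x, SD.mul_g, SD.mul_g, SD.mul_x, smul_neg, ← mul_smul, ← h2, sub_eq_add_neg]
  · rw [h2]; rfl

end SDsec

/-- dual numbers over a Lie ring -/
@[ext] structure DN (M : Type) where
  a : M
  b : M

section DNsec
variable {M : Type} [LieRing M]

instance : Add (DN M) := ⟨fun u v => ⟨u.a + v.a, u.b + v.b⟩⟩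
instance : Zero (DN M) := ⟨⟨0, 0⟩⟩
instance : Neg (DN M) := ⟨fun u => ⟨-u.a, -u.b⟩⟩
@[simp] theorem DN.add_a (u v : DN M) : (u + v).a = u.a + v.a := rfl
@[simp] theorem DN.add_b (u v : DN M) : (u + v).b = u.b + v.b := rfl
@[simp] theorem DN.zero_a : (0 : DN M).a = 0 := rfl
@[simp] theorem DN.zero_b : (0 : DN M).b = 0 := rfl
@[simp] theorem DN.neg_a (u : DN M) : (-u).a = -u.a := rfl
@[simp] theorem DN.neg_b (u : DN M) : (-u).b = -u.b := rfl

instance : AddCommGroup (DN M) where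
  add_assoc u v w := by apply DN.ext <;> simp [add_assoc]
  zero_add u := by apply DN.ext <;> simp
  add_zero u := by apply DN.ext <;> simp
  neg_add_cancel u := by apply DN.ext <;> simp
  add_comm u v := by apply DN.ext <;> simp [add_comm]
  nsmul := nsmulRec
  zsmul := zsmulRec

@[simp] theorem DN.sub_a (u v : DN M) : (u - v).a = u.a - v.a := by
  rw [sub_eq_add_neg, sub_eq_add_neg]; rfl
@[simp] theorem DN.sub_b (u v : DN M) : (u - v).b = u.b - v.b := by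
  rw [sub_eq_add_neg, sub_eq_add_neg]; rfl

instance : Bracket (DN M) (DN M) := ⟨fun u v => ⟨⁅u.a, v.a⁆, ⁅u.a, v.b⁆ + ⁅u.b, v.a⁆⟩⟩
@[simp] theorem DN.lie_a (u v : DN M) : (⁅u, v⁆).a = ⁅u.a, v.a⁆ := rfl
@[simp] theorem DN.lie_b (u v : DN M) : (⁅u, v⁆).b = ⁅u.a, v.b⁆ + ⁅u.b, v.a⁆ := rfl

instance : LieRing (DN M) where
  add_lie u v w := by
    apply DN.ext
    · simp
    · simp; abel
  lie_add u v w := by
    apply DN.ext
    · simp
    · simp; abel
  lie_self u := by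
    apply DN.ext
    · simp
    · simp only [DN.lie_b, DN.zero_b]
      rw [← lie_skew u.a u.b, neg_add_cancel]
  leibniz_lie u v w := by
    apply DN.ext
    · exact leibniz_lie _ _ _
    · simp only [DN.lie_b, DN.add_b, DN.lie_a, lie_add, add_lie]
      rw [leibniz_lie u.a v.a w.b, leibniz_lie u.a v.b w.a, leibniz_lie u.b v.a w.a]
      abel

end DNsec

section Step
variable {L : Type} [LieRing L] {m : ℕ}

instance DNact (X : MG L m) : DistribMulAction (SD X.M X.G) (DN X.M) where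
  smul h u := ⟨h.g • u.a, h.g • u.b + ⁅h.x, h.g • u.a⁆⟩
  one_smul u := by
    show (⟨(1 : X.G) • u.a, (1 : X.G) • u.b + ⁅(0 : X.M), (1 : X.G) • u.a⁆⟩ : DN X.M) = u
    apply DN.ext <;> simp
  mul_smul h k u := by
    show (⟨(h.g * k.g) • u.a, (h.g * k.g) • u.b + ⁅h.x + h.g • k.x, (h.g * k.g) • u.a⁆⟩ : DN X.M) =
      ⟨h.g • k.g • u.a, h.g • (k.g • u.b + ⁅k.x, k.g • u.a⁆) + ⁅h.x, h.g • k.g • u.a⁆⟩
    apply DN.ext
    · simp [mul_smul]
    · simp only [mul_smul, smul_add, X.smul_lie, add_lie]; abel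
  smul_zero h := by
    show (⟨h.g • (0 : X.M), h.g • (0 : X.M) + ⁅h.x, h.g • (0 : X.M)⁆⟩ : DN X.M) = 0
    apply DN.ext <;> simp
  smul_add h u v := by
    show (⟨h.g • (u.a + v.a), h.g • (u.b + v.b) + ⁅h.x, h.g • (u.a + v.a)⁆⟩ : DN X.M) =
      ⟨h.g • u.a, h.g • u.b + ⁅h.x, h.g • u.a⁆⟩ + ⟨h.g • v.a, h.g • v.b + ⁅h.x, h.g • v.a⁆⟩
    apply DN.ext
    · simp
    · simp; abel

variable (X : MG L m)

@[simp] theorem DNsmul_a (h : SD X.M X.G) (u : DN X.M) : (h • u).a = h.g • u.a := rfl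
@[simp] theorem DNsmul_b (h : SD X.M X.G) (u : DN X.M) : (h • u).b = h.g • u.b + ⁅h.x, h.g • u.a⁆ := rfl

def SDeq (M G : Type) : SD M G ≃ M × G where
  toFun h := (h.x, h.g)
  invFun h := ⟨h.1, h.2⟩
  left_inv _ := rfl
  right_inv _ := rfl

def DNeq (M : Type) : DN M ≃ M × M where
  toFun h := (h.a, h.b)
  invFun h := ⟨h.1, h.2⟩
  left_inv _ := rfl
  right_inv _ := rfl

instance : Finite (SD X.M X.G) := Finite.of_equiv _ (SDeq X.M X.G).symm
instance : Finite (DN X.M) := Finite.of_equiv _ (DNeq X.M).symm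

theorem MG.smul_mem (T : AddSubgroup L) (hT : IsSub T) (g : X.G) (x : X.M) (hg : g ∈ X.Q T hT) (hx : x ∈ X.P T) :
    g • x ∈ X.P T := by
  have h := X.Q_smul T hT T T hT hT g hg x hx
  have h2 := add_mem h hx
  simpa using h2

def nP (T : AddSubgroup L) : AddSubgroup (DN X.M) where
  carrier := {u | u.a ∈ X.P T ∧ u.b ∈ X.P T}
  zero_mem' := ⟨zero_mem _, zero_mem _⟩
  add_mem' := by
    rintro u v ⟨h1, h2⟩ ⟨h3, h4⟩
    exact ⟨add_mem h1 h3, add_mem h2 h4⟩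
  neg_mem' := by
    rintro u ⟨h1, h2⟩
    exact ⟨neg_mem h1, neg_mem h2⟩

def nQ (T : AddSubgroup L) (hT : IsSub T) : Subgroup (SD X.M X.G) where
  carrier := {u | u.x ∈ X.P T ∧ u.g ∈ X.Q T hT}
  one_mem' := ⟨zero_mem _, one_mem _⟩
  mul_mem' := by
    rintro u v ⟨h1, h2⟩ ⟨h3, h4⟩
    exact ⟨add_mem h1 (X.smul_mem T hT _ _ h2 h3), mul_mem h2 h4⟩
  inv_mem' := by
    rintro u ⟨h1, h2⟩
    exact ⟨neg_mem (X.smul_mem T hT _ _ (inv_mem h2) h1), inv_mem h2⟩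

def nι (S : Finset ℕ) : L →+ DN X.M where
  toFun x := if m ∈ S then ⟨0, X.ι (S.erase m) x⟩ else ⟨X.ι S x, 0⟩
  map_zero' := by
    split_ifs <;> (apply DN.ext <;> simp)
  map_add' x y := by
    split_ifs <;> (apply DN.ext <;> simp)

theorem nι_pos (S : Finset ℕ) (hm : m ∈ S) (x : L) : nι X S x = ⟨0, X.ι (S.erase m) x⟩ := by
  show (if m ∈ S then _ else _) = _
  rw [if_pos hm]
theorem nι_neg (S : Finset ℕ) (hm : m ∉ S) (x : L) : nι X S x = ⟨X.ι S x, 0⟩ := by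
  show (if m ∈ S then _ else _) = _
  rw [if_neg hm]

def nE (S : Finset ℕ) (x : L) : SD X.M X.G :=
  if m ∈ S then ⟨X.ι (S.erase m) x, 1⟩ else ⟨0, X.E S x⟩

theorem nE_pos (S : Finset ℕ) (hm : m ∈ S) (x : L) : nE X S x = ⟨X.ι (S.erase m) x, 1⟩ := by
  rw [nE, if_pos hm]
theorem nE_neg (S : Finset ℕ) (hm : m ∉ S) (x : L) : nE X S x = ⟨0, X.E S x⟩ := by
  rw [nE, if_neg hm]

theorem erase_union_left (S T : Finset ℕ) (hm : m ∉ T) : (S ∪ T).erase m = S.erase m ∪ T := by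
  rw [Finset.erase_union_distrib, Finset.erase_eq_of_notMem hm]
theorem erase_union_right (S T : Finset ℕ) (hm : m ∉ S) : (S ∪ T).erase m = S ∪ T.erase m := by
  rw [Finset.erase_union_distrib, Finset.erase_eq_of_notMem hm]

theorem erase_disj_left (S T : Finset ℕ) (h : Disjoint S T) : Disjoint (S.erase m) T :=
  h.mono_left (Finset.erase_subset _ _)
theorem erase_disj_right (S T : Finset ℕ) (h : Disjoint S T) : Disjoint S (T.erase m) :=
  h.mono_right (Finset.erase_subset _ _)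

theorem MG.E_zero (S : Finset ℕ) : X.E S 0 = 1 := by
  have := X.E_add S 0 0
  rw [add_zero] at this
  exact (mul_eq_left.1 this.symm)

def MG.next : MG L (m + 1) where
  M := DN X.M
  G := SD X.M X.G
  smul_lie h u v := by
    apply DN.ext
    · simp [X.smul_lie]
    · simp only [DNsmul_b, DN.lie_a, DN.lie_b, DNsmul_a, smul_add, X.smul_lie, lie_add, add_lie]
      rw [leibniz_lie h.x (h.g • u.a) (h.g • v.a)]
      abel
  cM := by
    obtain ⟨k, hk⟩ := X.cM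
    exact ⟨k + k, by rw [Nat.card_congr (DNeq X.M), Nat.card_prod, hk, pow_add]⟩
  cG := by
    obtain ⟨k, hk⟩ := X.cM
    obtain ⟨l, hl⟩ := X.cG
    exact ⟨k + l, by rw [Nat.card_congr (SDeq X.M X.G), Nat.card_prod, hk, hl, pow_add]⟩
  P := nP X
  Q := nQ X
  P_bot := by
    rw [eq_bot_iff]
    rintro u ⟨h1, h2⟩
    rw [X.P_bot, AddSubgroup.mem_bot] at h1 h2
    rw [AddSubgroup.mem_bot]
    exact DN.ext h1 h2
  Q_bot h := by
    rw [eq_bot_iff]
    rintro u ⟨h1, h2⟩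
    rw [X.P_bot, AddSubgroup.mem_bot] at h1
    rw [X.Q_bot, Subgroup.mem_bot] at h2
    rw [Subgroup.mem_bot]
    exact SD.ext h1 h2
  P_add T1 T2 h x := by
    obtain ⟨y, hy, z, hz, e1⟩ := X.P_add T1 T2 h x.a
    obtain ⟨y', hy', z', hz', e2⟩ := X.P_add T1 T2 h x.b
    exact ⟨⟨y, y'⟩, ⟨hy, hy'⟩, ⟨z, z'⟩, ⟨hz, hz'⟩, DN.ext e1 e2⟩
  P_lie T1 T2 T3 h x hx y hy :=
    ⟨X.P_lie T1 T2 T3 h _ hx.1 _ hy.1, add_mem (X.P_lie T1 T2 T3 h _ hx.1 _ hy.2) (X.P_lie T1 T2 T3 h _ hx.2 _ hy.1)⟩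
  Q_smul T1 h1 T2 T3 h12 h13 g hg x hx := by
    have ha := X.Q_smul T1 h1 T2 T3 h12 h13 _ hg.2 _ hx.1
    have hb := X.Q_smul T1 h1 T2 T3 h12 h13 _ hg.2 _ hx.2
    refine ⟨?_, ?_⟩
    · rw [DN.sub_a, DNsmul_a]
      exact ha
    · rw [DN.sub_b, DNsmul_b]
      have h3 : ⁅g.x, g.g • x.a⁆ = ⁅g.x, g.g • x.a - x.a⁆ + ⁅g.x, x.a⁆ := by
        rw [← lie_add, sub_add_cancel]
      have h4 := X.P_lie T1 T3 T3 h13 _ hg.1 _ ha
      have h5 := X.P_lie T1 T2 T3 h12 _ hg.1 _ hx.1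
      have := add_mem hb (add_mem h4 h5)
      rw [← h3] at this
      convert this using 1
      abel
  Q_comm T1 h1 T2 h2 T3 h3 h12 h21 h13 h23 h31 h32 g hg h hh := by
    rw [SD.commutator_eq]
    have hc := X.Q_comm T1 h1 T2 h2 T3 h3 h12 h21 h13 h23 h31 h32 _ hg.2 _ hh.2
    refine ⟨?_, hc⟩
    show g.x + g.g • h.x - ⁅g.g, h.g⁆ • (h.x + h.g • g.x) ∈ X.P T3
    have k1 := X.Q_smul T1 h1 T2 T3 h12 h13 _ hg.2 _ hh.1
    have k2 := X.Q_smul T2 h2 T1 T3 h21 h23 _ hh.2 _ hg.1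
    have k3 := X.Q_smul T3 h3 T2 T3 h32 h3 _ hc _ hh.1
    have k4 := X.Q_smul T3 h3 T1 T3 h31 h3 _ hc _ hg.1
    have k5 := X.Q_smul T3 h3 T3 T3 h3 h3 _ hc _ k2
    have := sub_mem (sub_mem k1 k2) (add_mem k3 (add_mem k4 k5))
    convert this using 1
    simp only [smul_add, smul_sub]
    abel
  Q_fact T1 h1 T2 h2 h g := by
    obtain ⟨a, ha, b, hb, e⟩ := X.Q_fact T1 h1 T2 h2 h g.g
    obtain ⟨y, hy, z, hz, e2⟩ := X.P_add T1 T2 h (a⁻¹ • g.x)
    refine ⟨⟨a • y, a⟩, ⟨X.smul_mem T1 h1 _ _ ha hy, ha⟩, ⟨z, b⟩, ⟨hz, hb⟩, ?_⟩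
    apply SD.ext
    · rw [SD.mul_x, ← smul_add, ← e2, smul_inv_smul]
    · exact e
  ι := nι X
  ι_mem S T x hx := by
    by_cases hm : m ∈ S
    · rw [nι_pos X S hm]
      exact ⟨zero_mem _, X.ι_mem _ _ _ hx⟩
    · rw [nι_neg X S hm]
      exact ⟨X.ι_mem _ _ _ hx, zero_mem _⟩
  ι_lie S T x y hd := by
    by_cases hS : m ∈ S
    · have hT : m ∉ T := Finset.disjoint_left.1 hd hS
      rw [nι_pos X S hS, nι_neg X T hT, nι_pos X (S ∪ T) (Finset.mem_union_left _ hS), erase_union_left S T hT,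
        ← X.ι_lie _ _ _ _ (erase_disj_left S T hd)]
      apply DN.ext <;> simp
    · by_cases hT : m ∈ T
      · rw [nι_neg X S hS, nι_pos X T hT, nι_pos X (S ∪ T) (Finset.mem_union_right _ hT), erase_union_right S T hS,
          ← X.ι_lie _ _ _ _ (erase_disj_right S T hd)]
        apply DN.ext <;> simp
      · have hST : m ∉ S ∪ T := by simp [hS, hT]
        rw [nι_neg X S hS, nι_neg X T hT, nι_neg X _ hST, ← X.ι_lie _ _ _ _ hd]
        apply DN.ext <;> simp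
  ι_ne S x hS hx := by
    by_cases hm : m ∈ S
    · rw [nι_pos X S hm] at hx
      refine X.ι_ne (S.erase m) x ?_ (congrArg DN.b hx)
      intro i hi
      have h1 := hS (Finset.mem_of_mem_erase hi)
      have h2 := Finset.ne_of_mem_erase hi
      rw [Finset.mem_range] at h1 ⊢
      omega
    · rw [nι_neg X S hm] at hx
      refine X.ι_ne S x ?_ (congrArg DN.a hx)
      intro i hi
      have h1 := hS hi
      have h2 : i ≠ m := fun h => hm (h ▸ hi)
      rw [Finset.mem_range] at h1 ⊢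
      omega
  E := nE X
  E_mem S T h x hx := by
    by_cases hm : m ∈ S
    · rw [nE_pos X S hm]
      exact ⟨X.ι_mem _ _ _ hx, one_mem _⟩
    · rw [nE_neg X S hm]
      exact ⟨zero_mem _, X.E_mem _ _ _ _ hx⟩
  E_add S x y := by
    by_cases hm : m ∈ S
    · rw [nE_pos X S hm, nE_pos X S hm, nE_pos X S hm]
      apply SD.ext <;> simp
    · rw [nE_neg X S hm, nE_neg X S hm, nE_neg X S hm]
      apply SD.ext
      · simp
      · exact X.E_add _ _ _
  E_ne S x hS hne hx := by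
    by_cases hm : m ∈ S
    · rw [nE_pos X S hm] at hx
      refine X.ι_ne (S.erase m) x ?_ (congrArg SD.x hx)
      intro i hi
      have h1 := hS (Finset.mem_of_mem_erase hi)
      have h2 := Finset.ne_of_mem_erase hi
      rw [Finset.mem_range] at h1 ⊢
      omega
    · rw [nE_neg X S hm] at hx
      refine X.E_ne S x ?_ hne (congrArg SD.g hx)
      intro i hi
      have h1 := hS hi
      have h2 : i ≠ m := fun h => hm (h ▸ hi)
      rw [Finset.mem_range] at h1 ⊢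
      omega
  E_comm S T x y hd hSn hTn := by
    rw [SD.commutator_eq]
    by_cases hS : m ∈ S
    · have hT : m ∉ T := Finset.disjoint_left.1 hd hS
      rw [nE_pos X S hS, nE_neg X T hT, nE_pos X (S ∪ T) (Finset.mem_union_left _ hS), erase_union_left S T hT]
      have h := X.E_smul T (S.erase m) y x (erase_disj_left S T hd).symm hTn
      apply SD.ext
      · simp only [smul_zero, add_zero, zero_add, commutatorElement_one_left, one_smul, h]
        rw [Finset.union_comm T, ← lie_skew x y, map_neg]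
        abel
      · simp
    · by_cases hT : m ∈ T
      · rw [nE_neg X S hS, nE_pos X T hT, nE_pos X (S ∪ T) (Finset.mem_union_right _ hT), erase_union_right S T hS]
        have h := X.E_smul S (T.erase m) x y (erase_disj_right S T hd) hSn
        apply SD.ext
        · simp only [smul_zero, add_zero, zero_add, commutatorElement_one_right, one_smul, h]
          abel
        · simp
      · have hST : m ∉ S ∪ T := by simp [hS, hT]
        rw [nE_neg X S hS, nE_neg X T hT, nE_neg X _ hST, ← X.E_comm _ _ _ _ hd hSn hTn]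
        apply SD.ext <;> simp
  E_smul S T x y hd hSn := by
    by_cases hS : m ∈ S
    · have hT : m ∉ T := Finset.disjoint_left.1 hd hS
      rw [nE_pos X S hS, nι_neg X T hT, nι_pos X (S ∪ T) (Finset.mem_union_left _ hS), erase_union_left S T hT,
        ← X.ι_lie _ _ _ _ (erase_disj_left S T hd)]
      apply DN.ext <;> simp
    · by_cases hT : m ∈ T
      · rw [nE_neg X S hS, nι_pos X T hT, nι_pos X (S ∪ T) (Finset.mem_union_right _ hT), erase_union_right S T hS]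
        have h := X.E_smul S (T.erase m) x y (erase_disj_right S T hd) hSn
        apply DN.ext
        · simp
        · simp [h]
      · have hST : m ∉ S ∪ T := by simp [hS, hT]
        rw [nE_neg X S hS, nι_neg X T hT, nι_neg X _ hST]
        have h := X.E_smul S T x y hd hSn
        apply DN.ext
        · simp [h]
        · simp

end Step

section Base
variable {L : Type} [LieRing L] [Finite L]

@[reducible] def trivAct (L : Type) [LieRing L] : DistribMulAction Unit L where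
  smul _ x := x
  one_smul _ := rfl
  mul_smul _ _ _ := rfl
  smul_zero _ := rfl
  smul_add _ _ _ := rfl

def MG.base (hc : ∃ k, Nat.card L = 2 ^ k) : MG L 0 where
  M := L
  G := Unit
  iA := trivAct L
  smul_lie _ _ _ := rfl
  cM := hc
  cG := ⟨0, by simp⟩
  P T := T
  Q _ _ := ⊤
  P_bot := rfl
  Q_bot _ := Subsingleton.elim _ _
  P_add T1 T2 h := h
  P_lie T1 T2 T3 h := h
  Q_smul T1 h1 T2 T3 _ _ g _ x _ := by
    show x - x ∈ T3
    rw [sub_self]; exact zero_mem _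
  Q_comm T1 h1 T2 h2 T3 h3 _ _ _ _ _ _ g _ h _ := trivial
  Q_fact T1 h1 T2 h2 _ g := ⟨(), trivial, (), trivial, rfl⟩
  ι S :=
    { toFun := fun x => if S = ∅ then x else 0
      map_zero' := by simp
      map_add' := fun x y => by split_ifs <;> simp }
  ι_mem S T x hx := by
    show (if S = ∅ then x else 0) ∈ T
    split_ifs
    · exact hx
    · exact zero_mem _
  ι_lie S T x y _ := by
    show ⁅(if S = ∅ then x else 0), (if T = ∅ then y else 0)⁆ = (if S ∪ T = ∅ then ⁅x, y⁆ else 0)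
    by_cases hS : S = ∅ <;> by_cases hT : T = ∅ <;> simp [hS, hT]
  ι_ne S x hS hx := by
    have h : S = ∅ := by simpa using hS
    have hx' : (if S = ∅ then x else 0) = 0 := hx
    rwa [if_pos h] at hx'
  E _ _ := ()
  E_mem _ _ _ _ _ := trivial
  E_add _ _ _ := rfl
  E_ne S x hS hne _ := by
    have h : S = ∅ := by simpa using hS
    exact absurd h hne.ne_empty
  E_comm _ _ _ _ _ _ _ := rfl
  E_smul S T x y _ hSn := by
    show (if T = ∅ then y else 0) = (if T = ∅ then y else 0) + (if S ∪ T = ∅ then ⁅x, y⁆ else 0)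
    have : S ∪ T ≠ ∅ := by
      intro h
      rw [Finset.union_eq_empty] at h
      exact hSn.ne_empty h.1
    rw [if_neg this, add_zero]

def mgOf (hc : ∃ k, Nat.card L = 2 ^ k) : (m : ℕ) → MG L m
  | 0 => MG.base hc
  | m + 1 => (mgOf hc m).next

end Base

section Lower
variable {L : Type} [LieRing L] {m : ℕ}

theorem E_neg (X : MG L m) (S : Finset ℕ) (x : L) : X.E S (-x) = (X.E S x)⁻¹ := by
  have h := X.E_add S (-x) x
  rw [neg_add_cancel, X.E_zero] at h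
  exact eq_inv_of_mul_eq_one_left h.symm

theorem E_mem_derived (X : MG L m) (U : AddSubgroup L)
    (hU : U ≤ AddSubgroup.closure {z | ∃ x ∈ U, ∃ y ∈ U, z = ⁅x, y⁆}) :
    ∀ k : ℕ, ∀ S : Finset ℕ, 2 ^ k ≤ S.card → ∀ x ∈ U, X.E S x ∈ derivedSeries X.G k := by
  intro k
  induction k with
  | zero =>
    intro S _ x _
    trivial
  | succ k ih =>
    intro S hS x hx
    rw [derivedSeries_succ]
    have hle : 2 ^ k ≤ S.card := le_trans (Nat.pow_le_pow_right (by norm_num) (Nat.le_succ k)) hS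
    obtain ⟨S2, hS2, hcard⟩ := Finset.exists_subset_card_eq hle
    have hpos : 0 < 2 ^ k := Nat.pow_pos (by norm_num)
    have hS1card : 2 ^ k ≤ (S \ S2).card := by
      rw [Finset.card_sdiff_of_subset hS2, hcard]
      rw [pow_succ] at hS
      omega
    have hun : (S \ S2) ∪ S2 = S := Finset.sdiff_union_of_subset hS2
    have hx2 := hU hx
    clear hx
    induction hx2 using AddSubgroup.closure_induction with
    | mem x hx =>
      obtain ⟨y, hy, y', hy', rfl⟩ := hx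
      rw [← hun, ← X.E_comm (S \ S2) S2 y y' Finset.sdiff_disjoint
        (Finset.card_pos.1 (by omega)) (Finset.card_pos.1 (by omega))]
      exact Subgroup.commutator_mem_commutator (ih _ hS1card y hy) (ih _ (by omega) y' hy')
    | zero => rw [X.E_zero]; exact one_mem _
    | add x y _ _ hx hy => rw [X.E_add]; exact mul_mem hx hy
    | neg x _ hx => rw [E_neg]; exact inv_mem hx

end Lower

/-- The five-dimensional Lie algebra over the field with two elements. -/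
@[ext] structure L5 where
  t1 : ZMod 2
  t2 : ZMod 2
  u1 : ZMod 2
  u2 : ZMod 2
  u3 : ZMod 2

namespace L5

def eqv : L5 ≃ ZMod 2 × ZMod 2 × ZMod 2 × ZMod 2 × ZMod 2 where
  toFun x := (x.t1, x.t2, x.u1, x.u2, x.u3)
  invFun x := ⟨x.1, x.2.1, x.2.2.1, x.2.2.2.1, x.2.2.2.2⟩
  left_inv _ := rfl
  right_inv _ := rfl

instance : Finite L5 := Finite.of_equiv _ eqv.symm

theorem card : Nat.card L5 = 2 ^ 5 := by
  rw [Nat.card_congr eqv]
  simp [Nat.card_prod]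

instance : Add L5 := ⟨fun x y => ⟨x.t1 + y.t1, x.t2 + y.t2, x.u1 + y.u1, x.u2 + y.u2, x.u3 + y.u3⟩⟩
instance : Zero L5 := ⟨⟨0, 0, 0, 0, 0⟩⟩
instance : Neg L5 := ⟨fun x => ⟨-x.t1, -x.t2, -x.u1, -x.u2, -x.u3⟩⟩
@[simp] theorem add_t1 (x y : L5) : (x + y).t1 = x.t1 + y.t1 := rfl
@[simp] theorem add_t2 (x y : L5) : (x + y).t2 = x.t2 + y.t2 := rfl
@[simp] theorem add_u1 (x y : L5) : (x + y).u1 = x.u1 + y.u1 := rfl
@[simp] theorem add_u2 (x y : L5) : (x + y).u2 = x.u2 + y.u2 := rfl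
@[simp] theorem add_u3 (x y : L5) : (x + y).u3 = x.u3 + y.u3 := rfl
@[simp] theorem zero_t1 : (0 : L5).t1 = 0 := rfl
@[simp] theorem zero_t2 : (0 : L5).t2 = 0 := rfl
@[simp] theorem zero_u1 : (0 : L5).u1 = 0 := rfl
@[simp] theorem zero_u2 : (0 : L5).u2 = 0 := rfl
@[simp] theorem zero_u3 : (0 : L5).u3 = 0 := rfl
@[simp] theorem neg_t1 (x : L5) : (-x).t1 = -x.t1 := rfl
@[simp] theorem neg_t2 (x : L5) : (-x).t2 = -x.t2 := rfl
@[simp] theorem neg_u1 (x : L5) : (-x).u1 = -x.u1 := rfl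
@[simp] theorem neg_u2 (x : L5) : (-x).u2 = -x.u2 := rfl
@[simp] theorem neg_u3 (x : L5) : (-x).u3 = -x.u3 := rfl

instance : AddCommGroup L5 where
  add_assoc u v w := by apply L5.ext <;> simp [add_assoc]
  zero_add u := by apply L5.ext <;> simp
  add_zero u := by apply L5.ext <;> simp
  neg_add_cancel u := by apply L5.ext <;> exact neg_add_cancel _
  add_comm u v := by apply L5.ext <;> simp [add_comm]
  nsmul := nsmulRec
  zsmul := zsmulRec

/-- t1, t2 commute; u1, u2, u3 multiply as in the cross product; t1 fixes u1, u3 and kills u2;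
t2 fixes u2, u3 and kills u1. -/
instance : Bracket L5 L5 := ⟨fun x y =>
  ⟨0, 0,
   (x.t1 * y.u1 - y.t1 * x.u1) + (x.u2 * y.u3 - x.u3 * y.u2),
   (x.t2 * y.u2 - y.t2 * x.u2) + (x.u3 * y.u1 - x.u1 * y.u3),
   ((x.t1 + x.t2) * y.u3 - (y.t1 + y.t2) * x.u3) + (x.u1 * y.u2 - x.u2 * y.u1)⟩⟩

@[simp] theorem lie_t1 (x y : L5) : (⁅x, y⁆).t1 = 0 := rfl
@[simp] theorem lie_t2 (x y : L5) : (⁅x, y⁆).t2 = 0 := rfl
theorem lie_u1 (x y : L5) : (⁅x, y⁆).u1 = (x.t1 * y.u1 - y.t1 * x.u1) + (x.u2 * y.u3 - x.u3 * y.u2) := rfl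
theorem lie_u2 (x y : L5) : (⁅x, y⁆).u2 = (x.t2 * y.u2 - y.t2 * x.u2) + (x.u3 * y.u1 - x.u1 * y.u3) := rfl
theorem lie_u3 (x y : L5) : (⁅x, y⁆).u3 =
  ((x.t1 + x.t2) * y.u3 - (y.t1 + y.t2) * x.u3) + (x.u1 * y.u2 - x.u2 * y.u1) := rfl

instance : LieRing L5 where
  add_lie x y z := by
    apply L5.ext
    · simp
    · simp
    · simp only [lie_u1, add_t1, add_t2, add_u1, add_u2, add_u3]; ring
    · simp only [lie_u2, add_t1, add_t2, add_u1, add_u2, add_u3]; ring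
    · simp only [lie_u3, add_t1, add_t2, add_u1, add_u2, add_u3]; ring
  lie_add x y z := by
    apply L5.ext
    · simp
    · simp
    · simp only [lie_u1, add_t1, add_t2, add_u1, add_u2, add_u3]; ring
    · simp only [lie_u2, add_t1, add_t2, add_u1, add_u2, add_u3]; ring
    · simp only [lie_u3, add_t1, add_t2, add_u1, add_u2, add_u3]; ring
  lie_self x := by
    apply L5.ext
    · simp
    · simp
    · simp only [lie_u1, zero_u1]; ring
    · simp only [lie_u2, zero_u2]; ring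
    · simp only [lie_u3, zero_u3]; ring
  leibniz_lie x y z := by
    have h2 : (2 : ZMod 2) = 0 := rfl
    apply L5.ext
    · simp
    · simp
    · simp only [lie_u1, lie_u2, lie_u3, add_u1, lie_t1, lie_t2]
      ring_nf
      reduce_mod_char
    · simp only [lie_u1, lie_u2, lie_u3, add_u2, lie_t1, lie_t2]
      ring_nf
      reduce_mod_char
    · simp only [lie_u1, lie_u2, lie_u3, add_u3, lie_t1, lie_t2]
      ring_nf

/-- the abelian subalgebra spanned by t1, t2 -/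
def A5 : AddSubgroup L5 where
  carrier := {x | x.u1 = 0 ∧ x.u2 = 0 ∧ x.u3 = 0}
  zero_mem' := ⟨rfl, rfl, rfl⟩
  add_mem' := by
    rintro a b ⟨h1, h2, h3⟩ ⟨h4, h5, h6⟩
    exact ⟨by simp [h1, h4], by simp [h2, h5], by simp [h3, h6]⟩
  neg_mem' := by
    rintro a ⟨h1, h2, h3⟩
    exact ⟨by simp [h1], by simp [h2], by simp [h3]⟩

/-- the class two subalgebra spanned by u1 + t2, u2 + t1, u3 + t1 + t2 -/
def B5 : AddSubgroup L5 where
  carrier := {x | x.t1 = x.u2 + x.u3 ∧ x.t2 = x.u1 + x.u3}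
  zero_mem' := ⟨rfl, rfl⟩
  add_mem' := by
    rintro a b ⟨h1, h2⟩ ⟨h4, h5⟩
    exact ⟨by simp [h1, h4]; ring, by simp [h2, h5]; ring⟩
  neg_mem' := by
    rintro a ⟨h1, h2⟩
    exact ⟨by rw [neg_t1, neg_u2, neg_u3, h1]; ring, by rw [neg_t2, neg_u1, neg_u3, h2]; ring⟩

/-- the centre of B5 -/
def Z5 : AddSubgroup L5 where
  carrier := {x | x.t1 = 0 ∧ x.t2 = 0 ∧ x.u1 = x.u2 ∧ x.u2 = x.u3}
  zero_mem' := ⟨rfl, rfl, rfl, rfl⟩
  add_mem' := by
    rintro a b ⟨h1, h2, h3, h4⟩ ⟨k1, k2, k3, k4⟩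
    exact ⟨by simp [h1, k1], by simp [h2, k2], by simp [h3, k3], by simp [h4, k4]⟩
  neg_mem' := by
    rintro a ⟨h1, h2, h3, h4⟩
    exact ⟨by simp [h1], by simp [h2], by simp [h3], by simp [h4]⟩

/-- the simple ideal spanned by u1, u2, u3 -/
def X5 : AddSubgroup L5 where
  carrier := {x | x.t1 = 0 ∧ x.t2 = 0}
  zero_mem' := ⟨rfl, rfl⟩
  add_mem' := by
    rintro a b ⟨h1, h2⟩ ⟨k1, k2⟩
    exact ⟨by simp [h1, k1], by simp [h2, k2]⟩
  neg_mem' := by
    rintro a ⟨h1, h2⟩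
    exact ⟨by simp [h1], by simp [h2]⟩

theorem brAA : Br A5 A5 ⊥ := by
  rintro x ⟨h1, h2, h3⟩ y ⟨k1, k2, k3⟩
  rw [AddSubgroup.mem_bot]
  apply L5.ext
  · rfl
  · rfl
  · simp [lie_u1, h1, h2, h3, k1, k2, k3]
  · simp [lie_u2, h1, h2, h3, k1, k2, k3]
  · simp [lie_u3, h1, h2, h3, k1, k2, k3]

theorem br_left_bot (T T' : AddSubgroup L5) : Br ⊥ T T' := by
  rintro x hx y _
  rw [AddSubgroup.mem_bot] at hx
  rw [hx, zero_lie]; exact zero_mem _

theorem br_right_bot (T T' : AddSubgroup L5) : Br T ⊥ T' := by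
  rintro x _ y hy
  rw [AddSubgroup.mem_bot] at hy
  rw [hy, lie_zero]; exact zero_mem _

theorem brBB : Br B5 B5 Z5 := by
  rintro x ⟨h1, h2⟩ y ⟨k1, k2⟩
  refine ⟨rfl, rfl, ?_, ?_⟩
  · simp only [lie_u1, lie_u2, h1, h2, k1, k2]
    ring_nf
    reduce_mod_char
  · simp only [lie_u3, lie_u2, h1, h2, k1, k2]
    ring_nf
    reduce_mod_char

theorem brBZ : Br B5 Z5 ⊥ := by
  rintro x ⟨h1, h2⟩ y ⟨k1, k2, k3, k4⟩
  rw [AddSubgroup.mem_bot]
  apply L5.ext
  · rfl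
  · rfl
  · simp only [lie_u1, h1, h2, k1, k2, k3, k4, zero_u1]
    ring_nf
    reduce_mod_char
  · simp only [lie_u2, h1, h2, k1, k2, k3, k4, zero_u2]
    ring_nf
    reduce_mod_char
  · simp only [lie_u3, h1, h2, k1, k2, k3, k4, zero_u3]
    ring_nf
    reduce_mod_char

theorem Z_le_B : Z5 ≤ B5 := by
  rintro x ⟨h1, h2, h3, h4⟩
  refine ⟨?_, ?_⟩
  · rw [h1, h4]; ring_nf; reduce_mod_char
  · rw [h2, h3, h4]; ring_nf; reduce_mod_char

theorem brSymm {T1 T2 T3 : AddSubgroup L5} (h : Br T1 T2 T3) : Br T2 T1 T3 := by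
  intro x hx y hy
  rw [← lie_skew]
  exact neg_mem (h y hy x hx)

theorem subA : IsSub A5 := fun x hx y hy => by
  have := brAA x hx y hy
  rw [AddSubgroup.mem_bot] at this
  rw [this]; exact zero_mem _

theorem subBot : IsSub (⊥ : AddSubgroup L5) := br_left_bot _ _

theorem subB : IsSub B5 := fun x hx y hy => Z_le_B (brBB x hx y hy)

theorem subZ : IsSub Z5 := fun x hx y hy => by
  have := brBZ x (Z_le_B hx) y hy
  rw [AddSubgroup.mem_bot] at this
  rw [this]; exact zero_mem _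

theorem brBZ' : Br B5 Z5 Z5 := fun x hx y hy => by
  have := brBZ x hx y hy
  rw [AddSubgroup.mem_bot] at this
  rw [this]; exact zero_mem _

theorem sumAB (x : L5) : ∃ y ∈ A5, ∃ z ∈ B5, x = y + z := by
  refine ⟨⟨x.t1 - (x.u2 + x.u3), x.t2 - (x.u1 + x.u3), 0, 0, 0⟩, ⟨rfl, rfl, rfl⟩,
    ⟨x.u2 + x.u3, x.u1 + x.u3, x.u1, x.u2, x.u3⟩, ⟨rfl, rfl⟩, ?_⟩
  apply L5.ext <;> simp

theorem perfectX : X5 ≤ AddSubgroup.closure {z | ∃ x ∈ X5, ∃ y ∈ X5, z = ⁅x, y⁆} := by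
  rintro x ⟨h1, h2⟩
  have e : x = ⁅(⟨0, 0, 0, x.u1, 0⟩ : L5), ⟨0, 0, 0, 0, 1⟩⁆ + ⁅(⟨0, 0, 0, 0, x.u2⟩ : L5), ⟨0, 0, 1, 0, 0⟩⁆
      + ⁅(⟨0, 0, x.u3, 0, 0⟩ : L5), ⟨0, 0, 0, 1, 0⟩⁆ := by
    apply L5.ext
    · simp [h1]
    · simp [h2]
    · simp [lie_u1]
    · simp [lie_u2]
    · simp [lie_u3]
  rw [e]
  refine add_mem (add_mem ?_ ?_) ?_
  · exact AddSubgroup.subset_closure ⟨_, ⟨rfl, rfl⟩, _, ⟨rfl, rfl⟩, rfl⟩
  · exact AddSubgroup.subset_closure ⟨_, ⟨rfl, rfl⟩, _, ⟨rfl, rfl⟩, rfl⟩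
  · exact AddSubgroup.subset_closure ⟨_, ⟨rfl, rfl⟩, _, ⟨rfl, rfl⟩, rfl⟩

end L5

open L5

section Main

variable {m : ℕ} (X : MG L5 m)

def GA : Subgroup X.G := X.Q A5 subA
def GB : Subgroup X.G := X.Q B5 subB
def GZ : Subgroup X.G := X.Q Z5 subZ

theorem GA_comm (g h : X.G) (hg : g ∈ GA X) (hh : h ∈ GA X) : ⁅g, h⁆ = 1 := by
  have := X.Q_comm A5 subA A5 subA ⊥ subBot brAA brAA (br_right_bot _ _) (br_right_bot _ _) (br_left_bot _ _)
    (br_left_bot _ _) g hg h hh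
  rw [X.Q_bot] at this
  exact this

theorem GB_comm (g h : X.G) (hg : g ∈ GB X) (hh : h ∈ GB X) : ⁅g, h⁆ ∈ GZ X :=
  X.Q_comm B5 subB B5 subB Z5 subZ brBB brBB brBZ' brBZ' (brSymm brBZ') (brSymm brBZ') g hg h hh

theorem GZ_comm (g h : X.G) (hg : g ∈ GZ X) (hh : h ∈ GB X) : ⁅g, h⁆ = 1 := by
  have := X.Q_comm Z5 subZ B5 subB ⊥ subBot (brSymm brBZ) brBZ (br_right_bot _ _) (br_right_bot _ _) (br_left_bot _ _)
    (br_left_bot _ _) g hg h hh
  rw [X.Q_bot] at this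
  exact this

theorem fact (g : X.G) : ∃ a ∈ GA X, ∃ b ∈ GB X, g = a * b := X.Q_fact A5 subA B5 subB sumAB g

theorem E_inj (S : Finset ℕ) (hS : S ⊆ Finset.range m) (hn : S.Nonempty) (x : L5) (hx : x ≠ 0) : X.E S x ≠ 1 :=
  fun h => hx (X.E_ne S x hS hn h)

end Main

theorem class_le_one {H : Type} [Group H] (h : ∀ a b : H, ⁅a, b⁆ = 1) :
    ∃ _ : Group.IsNilpotent H, Group.nilpotencyClass H ≤ 1 := by
  have h1 : Subgroup.upperCentralSeries H 1 = ⊤ := by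
    rw [eq_top_iff]
    intro x _
    rw [Subgroup.mem_upperCentralSeries_succ_iff]
    intro y
    rw [h x y]; exact one_mem _
  have hn : Group.IsNilpotent H := ⟨⟨1, h1⟩⟩
  exact ⟨hn, Subgroup.upperCentralSeries_eq_top_iff_nilpotencyClass_le.1 h1⟩

theorem class_le_two {H : Type} [Group H] (Z : Subgroup H) (h : ∀ a b : H, ⁅a, b⁆ ∈ Z)
    (h' : ∀ a ∈ Z, ∀ b : H, ⁅a, b⁆ = 1) :
    ∃ _ : Group.IsNilpotent H, Group.nilpotencyClass H ≤ 2 := by
  have h1 : Subgroup.upperCentralSeries H 2 = ⊤ := by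
    rw [eq_top_iff]
    intro x _
    rw [Subgroup.mem_upperCentralSeries_succ_iff]
    intro y
    rw [Subgroup.mem_upperCentralSeries_succ_iff]
    intro z
    rw [h' _ (h x y) z]; exact one_mem _
  have hn : Group.IsNilpotent H := ⟨⟨2, h1⟩⟩
  exact ⟨hn, Subgroup.upperCentralSeries_eq_top_iff_nilpotencyClass_le.1 h1⟩

theorem construction (N : ℕ) : ∃ (G : Type) (_ : Group G) (_ : Finite G) (A B : Subgroup G)
    (_ : Group.IsNilpotent A) (_ : Group.IsNilpotent B),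
    IsPGroup 2 G ∧ (∀ g : G, ∃ a ∈ A, ∃ b ∈ B, g = a * b) ∧
      Group.nilpotencyClass A = 1 ∧ Group.nilpotencyClass B = 2 ∧ derivedSeries G N ≠ ⊥ := by
  let m := 2 ^ (N + 1)
  have hm2 : 2 ≤ m := by
    show 2 ≤ 2 ^ (N + 1)
    rw [pow_succ]
    have : 0 < 2 ^ N := Nat.pow_pos (by norm_num)
    omega
  let X := mgOf (L := L5) ⟨5, L5.card⟩ m
  have hA : ∀ a b : GA X, ⁅a, b⁆ = 1 := by
    intro a b
    apply Subtype.ext
    exact GA_comm X a.1 b.1 a.2 b.2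
  obtain ⟨nA, cA⟩ := class_le_one hA
  let ZB : Subgroup (GB X) := (GZ X).subgroupOf (GB X)
  have hB1 : ∀ a b : GB X, ⁅a, b⁆ ∈ ZB := by
    intro a b
    exact GB_comm X a.1 b.1 a.2 b.2
  have hB2 : ∀ a ∈ ZB, ∀ b : GB X, ⁅a, b⁆ = 1 := by
    intro a ha b
    apply Subtype.ext
    exact GZ_comm X a.1 b.1 ha b.2
  obtain ⟨nB, cB⟩ := class_le_two ZB hB1 hB2
  have r0 : ({0} : Finset ℕ) ⊆ Finset.range m := by
    intro i hi
    rw [Finset.mem_singleton] at hi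
    rw [hi, Finset.mem_range]; omega
  have r01 : ({0} ∪ {1} : Finset ℕ) ⊆ Finset.range m := by
    intro i hi
    rw [Finset.mem_union, Finset.mem_singleton, Finset.mem_singleton] at hi
    rw [Finset.mem_range]; omega
  refine ⟨X.G, inferInstance, inferInstance, GA X, GB X, nA, nB, ?_, fact X, ?_, ?_, ?_⟩
  · obtain ⟨k, hk⟩ := X.cG
    exact IsPGroup.of_card hk
  · refine le_antisymm cA ?_
    rw [Nat.one_le_iff_ne_zero]
    intro h0
    rw [Group.nilpotencyClass_zero_iff_subsingleton] at h0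
    have hx : (⟨1, 0, 0, 0, 0⟩ : L5) ∈ A5 := ⟨rfl, rfl, rfl⟩
    have h1 := E_inj X {0} r0 (Finset.singleton_nonempty 0) ⟨1, 0, 0, 0, 0⟩
      (fun h => one_ne_zero (congrArg L5.t1 h))
    apply h1
    have := h0.elim (⟨_, X.E_mem {0} A5 subA _ hx⟩ : GA X) 1
    exact congrArg Subtype.val this
  · refine le_antisymm cB ?_
    by_contra hlt
    have hle : Group.nilpotencyClass (GB X) ≤ 1 := by omega
    rw [Group.IsNilpotent.nilpotencyClass_le_one_iff] at hle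
    have hx : (⟨0, 1, 1, 0, 0⟩ : L5) ∈ B5 := ⟨rfl, rfl⟩
    have hy : (⟨1, 0, 0, 1, 0⟩ : L5) ∈ B5 := ⟨rfl, rfl⟩
    have hc := hle.is_comm.comm (⟨_, X.E_mem {0} B5 subB _ hx⟩ : GB X) ⟨_, X.E_mem {1} B5 subB _ hy⟩
    have hc' : X.E {0} ⟨0, 1, 1, 0, 0⟩ * X.E {1} ⟨1, 0, 0, 1, 0⟩ = X.E {1} ⟨1, 0, 0, 1, 0⟩ * X.E {0} ⟨0, 1, 1, 0, 0⟩ :=
      congrArg Subtype.val hc
    have hcomm := X.E_comm {0} {1} ⟨0, 1, 1, 0, 0⟩ ⟨1, 0, 0, 1, 0⟩ (by simp) (Finset.singleton_nonempty 0)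
      (Finset.singleton_nonempty 1)
    rw [commutatorElement_eq_one_iff_mul_comm.2 hc'] at hcomm
    refine E_inj X ({0} ∪ {1}) r01 ⟨0, by simp⟩ _ ?_ hcomm.symm
    intro h
    have := congrArg L5.u3 h
    rw [lie_u3] at this
    exact absurd this (by decide)
  · intro hbot
    have hmem := E_mem_derived X X5 perfectX N (Finset.range m)
      (by rw [Finset.card_range]; exact Nat.pow_le_pow_right (by norm_num) (Nat.le_succ N)) ⟨0, 0, 1, 0, 0⟩ ⟨rfl, rfl⟩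
    rw [hbot, Subgroup.mem_bot] at hmem
    exact E_inj X (Finset.range m) (Finset.Subset.refl _) (Finset.nonempty_range_iff.2 (by omega)) ⟨0, 0, 1, 0, 0⟩
      (fun h => one_ne_zero (congrArg L5.u1 h)) hmem

/-- For every `N` there is a finite 2-group `G = AB` with `A` abelian (class exactly 1) and `B` nilpotent of class
exactly 2 whose derived length exceeds `N`; hence there is no function bounding the derived length of `G = AB` in
terms of the classes of the nilpotent factors `A` and `B`. -/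
theorem result :
    (∀ N : ℕ, ∃ (G : Type) (_ : Group G) (_ : Finite G) (A B : Subgroup G)
      (_ : Group.IsNilpotent A) (_ : Group.IsNilpotent B),
      IsPGroup 2 G ∧ (∀ g : G, ∃ a ∈ A, ∃ b ∈ B, g = a * b) ∧
        Group.nilpotencyClass A = 1 ∧ Group.nilpotencyClass B = 2 ∧ derivedSeries G N ≠ ⊥) ∧
    ¬ ∃ f : ℕ → ℕ → ℕ, ∀ (G : Type) [Group G] [Finite G] (A B : Subgroup G)
      [Group.IsNilpotent A] [Group.IsNilpotent B], (∀ g : G, ∃ a ∈ A, ∃ b ∈ B, g = a * b) →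
        derivedSeries G (f (Group.nilpotencyClass A) (Group.nilpotencyClass B)) = ⊥ := by
  refine ⟨construction, ?_⟩
  rintro ⟨f, hf⟩
  obtain ⟨G, _, _, A, B, _, _, _, hfac, hA, hB, hne⟩ := construction (f 1 2)
  have := hf G A B hfac
  rw [hA, hB] at this
  exact hne this

end Pool.Agent.Results.MP_640be2_al.UnboundedDerivedLength
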